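import Pool.Agent.Q331.Del.WFA
import Pool.Agent.Q331.Del.Red

/-!
# MP_ff2559_lc, Q1: the delayed `k`-server problem is `(2 k - 1)`-competitive

A request `r` of the delayed problem following a request `p ≠ r` is replaced by the requests
`r, p, r, p, ..., r` of the ordinary `k`-server problem, until a given lazy competitive algorithm
covers both `p` and `r`.  The offline optimum does not grow, and the delayed algorithm can follow
the ordinary one without moving the frozen server.  With the work function algorithm of
Koutsoupias and Papadimitriou, whose `(2 k - 1)`-competitiveness is proved in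
`Pool.Agent.Q331.Del.WFA`, this gives the ratio `2 k - 1` on every metric space.
-/

namespace Pool.Agent.Results.MP_ff2559_lc.CompetitiveTwoKMinusOne

open Q331.Del

/-- On every metric space, for every `k ≥ 2`, every initial configuration and every choice of the
initially frozen server, the competitiveness of the delayed `k`-server problem is at most
`2 k - 1`, and there is a `(2 k - 1)`-competitive deterministic online algorithm. -/
theorem result : ∀ k : ℕ, 2 ≤ k → ∀ (M : Type) [MetricSpace M] (s₀ : State M k),
    competitiveness (delayedA M k) s₀ ≤ ((2 * k - 1 : ℝ) : EReal) ∧
      Competitive (delayedA M k) s₀ (2 * k - 1) := by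
  intro k hk M _ s₀
  have h : Competitive (delayedA M k) s₀ (2 * k - 1) :=
    delayedA_of_kServer hk s₀.pos s₀.frozen (kServer_competitive (by omega) s₀.pos)
  exact ⟨sInf_le ⟨_, h, rfl⟩, h⟩

end Pool.Agent.Results.MP_ff2559_lc.CompetitiveTwoKMinusOne
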